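import Pool.Agent.Helper51.AJ.St
import Pool.Agent.Helper51.AJ.Basic

/-!
# Project AJ (MP_d63854_co), module PLA: cone over an outerplanar graph
-/

set_option autoImplicit false

namespace Pool.Agent.Helper75.AJ

open Pool.Agent.Helper51.AJ

private theorem con_pre {V : Type} {B : SimpleGraph V} {S : Set (Fin 1 ⊕ V)} (h0 : Sum.inl 0 ∉ S)
    (h : ((jn (⊤ : SimpleGraph (Fin 1)) B).induce S).Connected) :
    (B.induce (Sum.inr ⁻¹' S)).Connected := by
  let f : ↥(Sum.inr ⁻¹' S : Set V) → ↥S := fun x => ⟨Sum.inr x.1, x.2⟩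
  have hf : Function.Bijective f := by
    constructor
    · intro x y hxy
      have h1 : (Sum.inr x.1 : Fin 1 ⊕ V) = Sum.inr y.1 := congrArg Subtype.val hxy
      exact Subtype.ext (Sum.inr_injective h1)
    · rintro ⟨y | y, hy⟩
      · have : y = 0 := Subsingleton.elim _ _
        subst this
        exact absurd hy h0
      · exact ⟨⟨y, hy⟩, rfl⟩
  let e : (B.induce (Sum.inr ⁻¹' S)) ≃g ((jn (⊤ : SimpleGraph (Fin 1)) B).induce S) :=
    { toEquiv := Equiv.ofBijective f hf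
      map_rel_iff' := by
        intro a b
        exact Iff.rfl }
  exact (SimpleGraph.Iso.connected_iff e).2 h

private theorem trans {V W : Type} [Nonempty W] {B : SimpleGraph V} {H : SimpleGraph W}
    (h : IsMinor H (jn (⊤ : SimpleGraph (Fin 1)) B)) :
    ∃ w0 : W, ∀ (W' : Type) (H' : SimpleGraph W') (f : W' → W), Function.Injective f →
      (∀ i, f i ≠ w0) → (∀ i j, H'.Adj i j → H.Adj (f i) (f j)) → IsMinor H' B := by
  obtain ⟨φ, h1, h2, h3⟩ := h
  obtain ⟨w0, hw0⟩ : ∃ w0 : W, ∀ w, w ≠ w0 → (Sum.inl 0 : Fin 1 ⊕ V) ∉ φ w := by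
    by_cases hex : ∃ w0, (Sum.inl 0 : Fin 1 ⊕ V) ∈ φ w0
    · obtain ⟨w0, hw0⟩ := hex
      exact ⟨w0, fun w hw hm => Set.disjoint_left.1 (h2 w w0 hw) hm hw0⟩
    · exact ⟨Classical.arbitrary W, fun w _ hm => hex ⟨w, hm⟩⟩
  refine ⟨w0, fun W' H' f hf hne hadj => ⟨fun i => Sum.inr ⁻¹' φ (f i), fun i => ?_, fun i j hij => ?_,
    fun i j hij => ?_⟩⟩
  · exact con_pre (hw0 _ (hne i)) (h1 (f i))
  · exact Disjoint.preimage _ (h2 _ _ (hf.ne hij))
  · obtain ⟨x, hx, y, hy, hxy⟩ := h3 _ _ (hadj i j hij)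
    rcases x with x | x
    · have : x = 0 := Subsingleton.elim _ _
      subst this
      exact absurd hx (hw0 _ (hne i))
    · rcases y with y | y
      · have : y = 0 := Subsingleton.elim _ _
        subst this
        exact absurd hy (hw0 _ (hne j))
      · exact ⟨x, hx, y, hy, hxy⟩

private theorem maps33 : ∀ w0 : Fin 3 ⊕ Fin 3, ∃ f : Fin 5 → Fin 3 ⊕ Fin 3, Function.Injective f ∧
    (∀ i, f i ≠ w0) ∧ ∀ i j, K23.Adj i j → (completeBipartiteGraph (Fin 3) (Fin 3)).Adj (f i) (f j) := by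
  rintro (a | a)
  · fin_cases a
    · exact ⟨![Sum.inl 1, Sum.inl 2, Sum.inr 0, Sum.inr 1, Sum.inr 2], by decide, by decide, by decide⟩
    · exact ⟨![Sum.inl 0, Sum.inl 2, Sum.inr 0, Sum.inr 1, Sum.inr 2], by decide, by decide, by decide⟩
    · exact ⟨![Sum.inl 0, Sum.inl 1, Sum.inr 0, Sum.inr 1, Sum.inr 2], by decide, by decide, by decide⟩
  · fin_cases a
    · exact ⟨![Sum.inr 1, Sum.inr 2, Sum.inl 0, Sum.inl 1, Sum.inl 2], by decide, by decide, by decide⟩
    · exact ⟨![Sum.inr 0, Sum.inr 2, Sum.inl 0, Sum.inl 1, Sum.inl 2], by decide, by decide, by decide⟩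
    · exact ⟨![Sum.inr 0, Sum.inr 1, Sum.inl 0, Sum.inl 1, Sum.inl 2], by decide, by decide, by decide⟩

theorem hPLA : StPla := by
  intro V B h4 h23
  constructor
  · intro h
    obtain ⟨w0, hw⟩ := trans h
    apply h4
    refine hw (Fin 4) K4 w0.succAbove Fin.succAbove_right_injective (fun i => Fin.succAbove_ne w0 i) ?_
    intro i j hij
    exact Fin.succAbove_right_injective.ne hij.ne
  · intro h
    obtain ⟨w0, hw⟩ := trans h
    obtain ⟨f, hf, hne, hadj⟩ := maps33 w0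
    exact h23 (hw (Fin 5) K23 f hf hne hadj)

end Pool.Agent.Helper75.AJ
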